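import Pool.Agent.Helper69.KL.OneDim

set_option autoImplicit false

/-!
# The Klartag-Lehec discrete midpoint inequality
-/

namespace Pool.Agent.Helper69.KL

open Finset
open scoped ENNReal

/-- Real form on an interval of integers `[-N, N]`, all functions on `ℤ`. -/
lemma one_dim_real (N : ℕ) (f g h k : ℤ → ℝ) (hf : ∀ i, 0 ≤ f i) (hg : ∀ i, 0 ≤ g i)
    (hh : ∀ i, 0 ≤ h i) (hk : ∀ i, 0 ≤ k i)
    (H : ∀ x ∈ Icc (-(N : ℤ)) N, ∀ y ∈ Icc (-(N : ℤ)) N,
      f x * g y ≤ h ((x + y) / 2) * k ((x + y + 1) / 2)) :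
    (∑ x ∈ Icc (-(N : ℤ)) N, f x) * (∑ y ∈ Icc (-(N : ℤ)) N, g y) ≤
      (∑ x ∈ Icc (-(N : ℤ)) N, h x) * (∑ y ∈ Icc (-(N : ℤ)) N, k y) := by
  -- reindexing
  have reidx : ∀ φ : ℤ → ℝ, ∑ x ∈ Icc (-(N : ℤ)) N, φ x =
      ∑ i ∈ range (2 * N + 1), φ ((i : ℤ) - N) := by
    intro φ
    symm
    apply Finset.sum_bij (fun (i : ℕ) _ => (i : ℤ) - N)
    · intro i hi
      rw [mem_range] at hi
      rw [mem_Icc]
      omega
    · intro i _ j _ hij
      omega
    · intro x hx
      rw [mem_Icc] at hx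
      exact ⟨(x + N).toNat, by rw [mem_range]; omega, by omega⟩
    · intro i _
      rfl
  rw [reidx, reidx, reidx, reidx]
  set u : ℕ → ℝ := fun m => if m % 2 = 0 then k ((m / 2 : ℕ) - N) else h ((m / 2 : ℕ) - N)
    with hu
  have hu0 : ∀ m, 0 ≤ u m := by
    intro m
    rw [hu]
    dsimp only
    split_ifs
    · exact hk _
    · exact hh _
  have key := one_dim_alt (2 * N + 1 + (2 * N + 1)) (2 * N + 1) (2 * N + 1) rfl (by omega)
    (by omega) (fun i => f ((i : ℤ) - N)) (fun i => g ((i : ℤ) - N)) u (fun i => hf _)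
    (fun i => hg _) hu0 (by
      intro i hi j hj
      have hij := H ((i : ℤ) - N) (by rw [mem_Icc]; omega) ((j : ℤ) - N) (by rw [mem_Icc]; omega)
      refine hij.trans (le_of_eq ?_)
      rw [hu]
      dsimp only
      rcases Nat.even_or_odd' (i + j) with ⟨c, hc | hc⟩
      · have e1 : ((i : ℤ) - N + (j - N)) / 2 = ((i + j + 1) / 2 : ℕ) - N := by omega
        have e2 : ((i : ℤ) - N + (j - N) + 1) / 2 = ((i + j) / 2 : ℕ) - N := by omega
        rw [if_pos (by omega), if_neg (by omega), e1, e2, mul_comm]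
      · have e1 : ((i : ℤ) - N + (j - N)) / 2 = ((i + j) / 2 : ℕ) - N := by omega
        have e2 : ((i : ℤ) - N + (j - N) + 1) / 2 = ((i + j + 1) / 2 : ℕ) - N := by omega
        rw [if_neg (by omega), if_pos (by omega), e1, e2])
  rw [show 2 * N + 1 + (2 * N + 1) = 2 * (2 * N + 1) by ring,
    show 2 * (2 * N + 1) - 1 = 2 * (2 * N) + 1 by omega, alt_even, alt_odd] at key
  refine key.trans (le_of_eq ?_)
  congr 1
  · apply Finset.sum_congr rfl
    intro t _
    rw [hu]
    dsimp only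
    rw [if_neg (by omega), show (2 * t + 1) / 2 = t by omega]
  · apply Finset.sum_congr rfl
    intro t _
    rw [hu]
    dsimp only
    rw [if_pos (by omega), show 2 * t / 2 = t by omega]

/-- The one-dimensional inequality for `[0,∞]`-valued functions on `ℤ`. -/
theorem one_dim (f g h k : ℤ → ℝ≥0∞)
    (H : ∀ x y, f x * g y ≤ h ((x + y) / 2) * k ((x + y + 1) / 2)) :
    (∑' x, f x) * (∑' y, g y) ≤ (∑' x, h x) * (∑' y, k y) := by
  -- trivial cases
  by_cases hf0 : ∀ x, f x = 0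
  · simp [hf0]
  by_cases hg0 : ∀ x, g x = 0
  · simp [hg0]
  push Not at hf0 hg0
  obtain ⟨x0, hx0⟩ := hf0
  obtain ⟨y0, hy0⟩ := hg0
  have hpos : h ((x0 + y0) / 2) * k ((x0 + y0 + 1) / 2) ≠ 0 := by
    intro h0
    have := H x0 y0
    rw [h0, nonpos_iff_eq_zero, mul_eq_zero] at this
    rcases this with h1 | h1
    · exact hx0 h1
    · exact hy0 h1
  have hhs : (∑' x, h x) ≠ 0 := by
    intro h0
    rw [ENNReal.tsum_eq_zero] at h0
    exact hpos (by rw [h0, zero_mul])
  have hks : (∑' x, k x) ≠ 0 := by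
    intro h0
    rw [ENNReal.tsum_eq_zero] at h0
    exact hpos (by rw [h0 ((x0 + y0 + 1) / 2), mul_zero])
  by_cases hht : (∑' x, h x) = ⊤
  · rw [hht, ENNReal.top_mul hks]; exact le_top
  by_cases hkt : (∑' x, k x) = ⊤
  · rw [hkt, ENNReal.mul_top hhs]; exact le_top
  have hhf : ∀ x, h x ≠ ⊤ := fun x => ENNReal.ne_top_of_tsum_ne_top hht x
  have hkf : ∀ x, k x ≠ ⊤ := fun x => ENNReal.ne_top_of_tsum_ne_top hkt x
  have hff : ∀ x, f x ≠ ⊤ := by
    intro x hx
    have := H x y0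
    rw [hx, ENNReal.top_mul hy0, top_le_iff] at this
    exact ENNReal.mul_ne_top (hhf _) (hkf _) this
  have hgf : ∀ x, g x ≠ ⊤ := by
    intro x hx
    have := H x0 x
    rw [hx, ENNReal.mul_top hx0, top_le_iff] at this
    exact ENNReal.mul_ne_top (hhf _) (hkf _) this
  -- finite sections
  have fin : ∀ N : ℕ, (∑ x ∈ Icc (-(N : ℤ)) N, f x) * (∑ y ∈ Icc (-(N : ℤ)) N, g y) ≤
      (∑' x, h x) * (∑' y, k y) := by
    intro N
    have hreal := one_dim_real N (fun x => (f x).toReal) (fun x => (g x).toReal)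
      (fun x => (h x).toReal) (fun x => (k x).toReal) (fun _ => ENNReal.toReal_nonneg)
      (fun _ => ENNReal.toReal_nonneg) (fun _ => ENNReal.toReal_nonneg)
      (fun _ => ENNReal.toReal_nonneg) (by
        intro x _ y _
        rw [← ENNReal.toReal_mul, ← ENNReal.toReal_mul]
        exact ENNReal.toReal_mono (ENNReal.mul_ne_top (hhf _) (hkf _)) (H x y))
    rw [← ENNReal.toReal_sum (fun x _ => hff x), ← ENNReal.toReal_sum (fun x _ => hgf x),
      ← ENNReal.toReal_sum (fun x _ => hhf x), ← ENNReal.toReal_sum (fun x _ => hkf x),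
      ← ENNReal.toReal_mul, ← ENNReal.toReal_mul] at hreal
    have e1 : (∑ x ∈ Icc (-(N : ℤ)) N, h x) ≠ ⊤ := ENNReal.sum_ne_top.2 (fun x _ => hhf x)
    have e2 : (∑ x ∈ Icc (-(N : ℤ)) N, k x) ≠ ⊤ := ENNReal.sum_ne_top.2 (fun x _ => hkf x)
    have e3 : (∑ x ∈ Icc (-(N : ℤ)) N, f x) ≠ ⊤ := ENNReal.sum_ne_top.2 (fun x _ => hff x)
    have e4 : (∑ x ∈ Icc (-(N : ℤ)) N, g x) ≠ ⊤ := ENNReal.sum_ne_top.2 (fun x _ => hgf x)
    rw [ENNReal.toReal_le_toReal (ENNReal.mul_ne_top e3 e4) (ENNReal.mul_ne_top e1 e2)] at hreal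
    exact hreal.trans (mul_le_mul' (ENNReal.sum_le_tsum _) (ENNReal.sum_le_tsum _))
  -- pass to the limit
  have cof : ∀ t : Finset ℤ, ∃ N : ℕ, t ⊆ Icc (-(N : ℤ)) N := by
    intro t
    refine ⟨t.sup (fun x => x.natAbs), fun x hx => ?_⟩
    have : x.natAbs ≤ t.sup (fun x => x.natAbs) := Finset.le_sup (f := fun x : ℤ => x.natAbs) hx
    rw [mem_Icc]
    omega
  rw [ENNReal.tsum_eq_iSup_sum' (fun N : ℕ => Icc (-(N : ℤ)) N) cof (f := f),
    ENNReal.tsum_eq_iSup_sum' (fun N : ℕ => Icc (-(N : ℤ)) N) cof (f := g)]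
  rw [ENNReal.iSup_mul]
  apply iSup_le
  intro N
  rw [ENNReal.mul_iSup]
  apply iSup_le
  intro M
  refine le_trans ?_ (fin (max N M))
  apply mul_le_mul'
  · apply Finset.sum_le_sum_of_subset
    apply Finset.Icc_subset_Icc
    · have : (N : ℤ) ≤ (max N M : ℕ) := by exact_mod_cast le_max_left N M
      omega
    · exact_mod_cast le_max_left N M
  · apply Finset.sum_le_sum_of_subset
    apply Finset.Icc_subset_Icc
    · have : (M : ℤ) ≤ (max N M : ℕ) := by exact_mod_cast le_max_right N M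
      omega
    · exact_mod_cast le_max_right N M

/-- Lower midpoint of two integer vectors. -/
def mfl {X : Type*} (a b : X → ℤ) : X → ℤ := fun x => (a x + b x) / 2

/-- Upper midpoint of two integer vectors. -/
def mce {X : Type*} (a b : X → ℤ) : X → ℤ := fun x => (a x + b x + 1) / 2

lemma mfl_cons {n : ℕ} (a b : ℤ) (x y : Fin n → ℤ) :
    mfl (Fin.cons a x) (Fin.cons b y : Fin (n + 1) → ℤ) =
      (Fin.cons ((a + b) / 2) (mfl x y) : Fin (n + 1) → ℤ) := by
  funext i
  refine Fin.cases ?_ (fun j => ?_) i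
  · simp [mfl]
  · simp [mfl]

lemma mce_cons {n : ℕ} (a b : ℤ) (x y : Fin n → ℤ) :
    mce (Fin.cons a x) (Fin.cons b y : Fin (n + 1) → ℤ) =
      (Fin.cons ((a + b + 1) / 2) (mce x y) : Fin (n + 1) → ℤ) := by
  funext i
  refine Fin.cases ?_ (fun j => ?_) i
  · simp [mce]
  · simp [mce]

lemma tsum_cons {n : ℕ} (f : (Fin (n + 1) → ℤ) → ℝ≥0∞) :
    ∑' x, f x = ∑' a : ℤ, ∑' x : Fin n → ℤ, f (Fin.cons a x) := by
  rw [← ENNReal.tsum_prod, ← (Fin.consEquiv (fun _ => ℤ)).tsum_eq]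
  rfl

/-- The functional form of the Klartag-Lehec inequality in all dimensions. -/
theorem klartag_lehec_fun : ∀ (n : ℕ) (f g h k : (Fin n → ℤ) → ℝ≥0∞),
    (∀ x y, f x * g y ≤ h (mfl x y) * k (mce x y)) →
    (∑' x, f x) * (∑' y, g y) ≤ (∑' x, h x) * (∑' y, k y) := by
  intro n
  induction n with
  | zero =>
    intro f g h k H
    have e : ∀ φ : (Fin 0 → ℤ) → ℝ≥0∞, ∑' x, φ x = φ default := by
      intro φ
      rw [tsum_eq_single default]
      intro b hb
      exact absurd (Subsingleton.elim b default) hb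
    rw [e, e, e, e]
    have := H default default
    rwa [Subsingleton.elim (mfl default default) (default : Fin 0 → ℤ),
      Subsingleton.elim (mce default default) (default : Fin 0 → ℤ)] at this
  | succ n ih =>
    intro f g h k H
    rw [tsum_cons f, tsum_cons g, tsum_cons h, tsum_cons k]
    apply one_dim
    intro a b
    apply ih
    intro x y
    have := H (Fin.cons a x) (Fin.cons b y)
    rwa [mfl_cons, mce_cons] at this

lemma card_fin {n : ℕ} (A B : Finset (Fin n → ℤ)) :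
    A.card * B.card ≤ (image₂ mfl A B).card * (image₂ mce A B).card := by
  classical
  have e : ∀ C : Finset (Fin n → ℤ),
      ∑' x, (if x ∈ C then (1 : ℝ≥0∞) else 0) = (C.card : ℝ≥0∞) := by
    intro C
    rw [tsum_eq_sum (s := C) (by intro b hb; simp [hb])]
    simp
  have := klartag_lehec_fun n (fun x => if x ∈ A then 1 else 0) (fun x => if x ∈ B then 1 else 0)
    (fun x => if x ∈ image₂ mfl A B then 1 else 0) (fun x => if x ∈ image₂ mce A B then 1 else 0)
    (by
      intro x y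
      by_cases hx : x ∈ A
      · by_cases hy : y ∈ B
        · rw [if_pos hx, if_pos hy, if_pos (mem_image₂_of_mem hx hy),
            if_pos (mem_image₂_of_mem hx hy)]
        · simp [hy]
      · simp [hx])
  rw [e, e, e, e] at this
  exact_mod_cast this

/-- **Klartag-Lehec inequality** (discrete Brunn-Minkowski midpoint inequality) for finite sets of
integer vectors indexed by a finite type. -/
theorem card_mul_card_le {X : Type*} [Fintype X] [DecidableEq X] (A B : Finset (X → ℤ)) :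
    A.card * B.card ≤ (image₂ mfl A B).card * (image₂ mce A B).card := by
  classical
  set e : (X → ℤ) ≃ (Fin (Fintype.card X) → ℤ) :=
    Equiv.arrowCongr (Fintype.equivFin X) (Equiv.refl ℤ) with he
  have key := card_fin (A.map e.toEmbedding) (B.map e.toEmbedding)
  rw [Finset.card_map, Finset.card_map] at key
  have h1 : image₂ mfl (A.map e.toEmbedding) (B.map e.toEmbedding) =
      (image₂ mfl A B).map e.toEmbedding := by
    ext z
    simp only [mem_image₂, Finset.mem_map, Equiv.coe_toEmbedding]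
    constructor
    · rintro ⟨_, ⟨a, ha, rfl⟩, _, ⟨b, hb, rfl⟩, rfl⟩
      exact ⟨mfl a b, ⟨a, ha, b, hb, rfl⟩, rfl⟩
    · rintro ⟨_, ⟨a, ha, b, hb, rfl⟩, rfl⟩
      exact ⟨e a, ⟨a, ha, rfl⟩, e b, ⟨b, hb, rfl⟩, rfl⟩
  have h2 : image₂ mce (A.map e.toEmbedding) (B.map e.toEmbedding) =
      (image₂ mce A B).map e.toEmbedding := by
    ext z
    simp only [mem_image₂, Finset.mem_map, Equiv.coe_toEmbedding]
    constructor
    · rintro ⟨_, ⟨a, ha, rfl⟩, _, ⟨b, hb, rfl⟩, rfl⟩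
      exact ⟨mce a b, ⟨a, ha, b, hb, rfl⟩, rfl⟩
    · rintro ⟨_, ⟨a, ha, b, hb, rfl⟩, rfl⟩
      exact ⟨e a, ⟨a, ha, rfl⟩, e b, ⟨b, hb, rfl⟩, rfl⟩
  rw [h1, h2, Finset.card_map, Finset.card_map] at key
  exact key

lemma abs_two_mfl {X : Type*} (a b : X → ℤ) (x : X) : |2 * mfl a b x - (a x + b x)| ≤ 1 := by
  unfold mfl
  rw [abs_le]
  constructor <;> omega

lemma abs_two_mce {X : Type*} (a b : X → ℤ) (x : X) : |2 * mce a b x - (a x + b x)| ≤ 1 := by
  unfold mce
  rw [abs_le]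
  constructor <;> omega

/-- Midpoint property of a finite set of integer vectors closed under both midpoints. -/
theorem exists_midpoint {X : Type*} [Fintype X] [DecidableEq X] (Om : Finset (X → ℤ))
    (hfl : ∀ a ∈ Om, ∀ b ∈ Om, mfl a b ∈ Om) (hce : ∀ a ∈ Om, ∀ b ∈ Om, mce a b ∈ Om)
    (A B : Finset (X → ℤ)) (hA : A ⊆ Om) (hB : B ⊆ Om) :
    ∃ C ⊆ Om, A.card * B.card ≤ C.card ^ 2 ∧
      ∀ c ∈ C, ∃ a ∈ A, ∃ b ∈ B, ∀ x, |2 * c x - (a x + b x)| ≤ 1 := by
  classical
  have key := card_mul_card_le A B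
  rcases le_total (image₂ mfl A B).card (image₂ mce A B).card with h | h
  · refine ⟨image₂ mce A B, ?_, key.trans ?_, ?_⟩
    · intro c hc
      obtain ⟨a, ha, b, hb, rfl⟩ := mem_image₂.1 hc
      exact hce a (hA ha) b (hB hb)
    · rw [pow_two]; exact Nat.mul_le_mul_right _ h
    · intro c hc
      obtain ⟨a, ha, b, hb, rfl⟩ := mem_image₂.1 hc
      exact ⟨a, ha, b, hb, fun x => abs_two_mce a b x⟩
  · refine ⟨image₂ mfl A B, ?_, key.trans ?_, ?_⟩
    · intro c hc
      obtain ⟨a, ha, b, hb, rfl⟩ := mem_image₂.1 hc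
      exact hfl a (hA ha) b (hB hb)
    · rw [pow_two]; exact Nat.mul_le_mul_left _ h
    · intro c hc
      obtain ⟨a, ha, b, hb, rfl⟩ := mem_image₂.1 hc
      exact ⟨a, ha, b, hb, fun x => abs_two_mfl a b x⟩

/-- Both midpoints preserve a coordinatewise inequality between two coordinates. -/
lemma mfl_le_mfl {X : Type*} {a b : X → ℤ} {x y : X} (ha : a x ≤ a y) (hb : b x ≤ b y) :
    mfl a b x ≤ mfl a b y := by
  unfold mfl
  omega

lemma mce_le_mce {X : Type*} {a b : X → ℤ} {x y : X} (ha : a x ≤ a y) (hb : b x ≤ b y) :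
    mce a b x ≤ mce a b y := by
  unfold mce
  omega

end Pool.Agent.Helper69.KL
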