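import Mathlib

set_option autoImplicit false

/-!
# The one-dimensional discrete midpoint inequality (product form)
-/

namespace Pool.Agent.Helper69.KL

open Finset

/-- `alt u n = u (n-1) + u (n-3) + ...`. -/
noncomputable def alt (u : ℕ → ℝ) : ℕ → ℝ
  | 0 => 0
  | 1 => u 0
  | (n + 2) => alt u n + u (n + 1)

lemma alt_succ_succ (u : ℕ → ℝ) (n : ℕ) : alt u (n + 2) = alt u n + u (n + 1) := rfl

lemma alt_congr {u v : ℕ → ℝ} : ∀ n : ℕ, (∀ i < n, u i = v i) → alt u n = alt v n
  | 0, _ => rfl
  | 1, h => h 0 (by omega)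
  | (n + 2), h => by
    rw [alt_succ_succ, alt_succ_succ, alt_congr n (fun i hi => h i (by omega)),
      h (n + 1) (by omega)]

lemma alt_nonneg {u : ℕ → ℝ} (hu : ∀ i, 0 ≤ u i) : ∀ n : ℕ, 0 ≤ alt u n
  | 0 => le_refl _
  | 1 => hu 0
  | (n + 2) => by
    rw [alt_succ_succ]
    exact add_nonneg (alt_nonneg hu n) (hu _)

lemma alt_even (u : ℕ → ℝ) (T : ℕ) : alt u (2 * T) = ∑ t ∈ range T, u (2 * t + 1) := by
  induction T with
  | zero => simp [alt]
  | succ T ih =>
    rw [show 2 * (T + 1) = 2 * T + 2 by ring, alt_succ_succ, ih, Finset.sum_range_succ]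

lemma alt_odd (u : ℕ → ℝ) (T : ℕ) : alt u (2 * T + 1) = ∑ t ∈ range (T + 1), u (2 * t) := by
  induction T with
  | zero => simp [alt]
  | succ T ih =>
    rw [show 2 * (T + 1) + 1 = (2 * T + 1) + 2 by ring, alt_succ_succ, ih,
      Finset.sum_range_succ _ (T + 1)]
    rfl

lemma algebra_aux {p q r s l K : ℝ} (hp : 0 ≤ p) (hq : 0 ≤ q) (hr : 0 ≤ r) (hs : 0 ≤ s)
    (hl0 : 0 ≤ l) (hl1 : l ≤ 1) (hK : 0 ≤ K) (h1 : (1 - l) ^ 2 * K ≤ p * q)
    (h2 : l ^ 2 * K ≤ r * s) : K ≤ (p + r) * (q + s) := by
  have h3 : (2 * (l * (1 - l)) * K) ^ 2 ≤ (p * s + r * q) ^ 2 := by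
    have h4 : (l ^ 2 * K) * ((1 - l) ^ 2 * K) ≤ (r * s) * (p * q) :=
      mul_le_mul h2 h1 (by positivity) (by positivity)
    nlinarith [sq_nonneg (p * s - r * q)]
  have h5 : 2 * (l * (1 - l)) * K ≤ p * s + r * q := by
    have h6 : 0 ≤ p * s + r * q := by positivity
    exact le_of_sq_le_sq h3 h6
  nlinarith

/-- Step of the induction: shorten `f`. -/
lemma step_f {a b : ℕ} (ha : 1 ≤ a)
    (ih : ∀ (f g u : ℕ → ℝ), (∀ i, 0 ≤ f i) → (∀ i, 0 ≤ g i) → (∀ i, 0 ≤ u i) →
      (∀ i < a, ∀ j < b + 1, f i * g j ≤ u (i + j) * u (i + j + 1)) →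
      (∑ i ∈ range a, f i) * (∑ j ∈ range (b + 1), g j) ≤
        alt u (a + (b + 1)) * alt u (a + (b + 1) - 1))
    (f g u : ℕ → ℝ) (hf : ∀ i, 0 ≤ f i) (hg : ∀ i, 0 ≤ g i) (hu : ∀ i, 0 ≤ u i)
    (h : ∀ i < a + 1, ∀ j < b + 1, f i * g j ≤ u (i + j) * u (i + j + 1))
    (hlam : f a * (∑ j ∈ range (b + 1), g j) ≤ g b * (∑ i ∈ range (a + 1), f i)) :
    (∑ i ∈ range (a + 1), f i) * (∑ j ∈ range (b + 1), g j) ≤
      alt u (a + 1 + (b + 1)) * alt u (a + 1 + (b + 1) - 1) := by
  set F := ∑ i ∈ range (a + 1), f i with hF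
  set G := ∑ j ∈ range (b + 1), g j with hG
  have hF0 : 0 ≤ F := Finset.sum_nonneg (fun i _ => hf i)
  have hG0 : 0 ≤ G := Finset.sum_nonneg (fun i _ => hg i)
  have hR0 : 0 ≤ alt u (a + 1 + (b + 1)) * alt u (a + 1 + (b + 1) - 1) :=
    mul_nonneg (alt_nonneg hu _) (alt_nonneg hu _)
  rcases eq_or_lt_of_le hF0 with hF1 | hF1
  · rw [← hF1, zero_mul]; exact hR0
  rcases eq_or_lt_of_le hG0 with hG1 | hG1
  · rw [← hG1, mul_zero]; exact hR0
  have hgG : g b ≤ G := by
    rw [hG]
    exact Finset.single_le_sum (f := g) (fun i _ => hg i) (by simp)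
  have hfF : f a ≤ F := by
    rw [hF]
    exact Finset.single_le_sum (f := f) (fun i _ => hf i) (by simp)
  set l := f a / F with hl
  have hl0 : 0 ≤ l := div_nonneg (hf a) hF0
  have hl1 : l ≤ 1 := by rw [hl, div_le_one hF1]; exact hfF
  have hlF : l * F = f a := by rw [hl]; field_simp
  -- the factor `mu`
  obtain ⟨mu, hmu0, hmu1, hmug⟩ : ∃ mu : ℝ, 0 ≤ mu ∧ mu ≤ 1 ∧ mu * g b = l * G := by
    rcases eq_or_lt_of_le (hg b) with hgb | hgb
    · refine ⟨0, le_refl _, zero_le_one, ?_⟩
      have : f a * G ≤ 0 := by rw [← hgb, zero_mul] at hlam; exact hlam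
      have h3 : f a = 0 := by
        rcases eq_or_lt_of_le (hf a) with h4 | h4
        · exact h4.symm
        · exfalso
          have := mul_pos h4 hG1
          linarith
      rw [hl, h3]
      simp
    · refine ⟨l * G / g b, by positivity, ?_, by field_simp⟩
      rw [div_le_one hgb, hl, div_mul_eq_mul_div, div_le_iff₀ hF1]
      exact hlam
  set m := a + (b + 1) with hm
  -- new sequences
  set g' := Function.update g b ((1 - mu) * g b) with hg'
  set u' := Function.update u (m - 1) ((1 - mu) * u (m - 1)) with hu'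
  have hg'0 : ∀ i, 0 ≤ g' i := by
    intro i
    rw [hg']
    by_cases hi : i = b
    · subst hi; rw [Function.update_self]; exact mul_nonneg (by linarith) (hg _)
    · rw [Function.update_of_ne hi]; exact hg i
  have hu'0 : ∀ i, 0 ≤ u' i := by
    intro i
    rw [hu']
    by_cases hi : i = m - 1
    · subst hi; rw [Function.update_self]; exact mul_nonneg (by linarith) (hu _)
    · rw [Function.update_of_ne hi]; exact hu i
  have hg'le : ∀ i, g' i ≤ g i := by
    intro i
    rw [hg']
    by_cases hi : i = b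
    · subst hi; rw [Function.update_self]
      nlinarith [hg i]
    · rw [Function.update_of_ne hi]
  have hnew := ih f g' u' hf hg'0 hu'0 (by
    intro i hi j hj
    have hij := h i (by omega) j hj
    have e1 : u' (i + j) = u (i + j) := by
      rw [hu', Function.update_of_ne (by omega)]
    rw [e1]
    by_cases hlast : i + j + 1 = m - 1
    · have hjb : j = b := by omega
      subst hjb
      rw [hlast, hu', hg', Function.update_self, Function.update_self]
      rw [hlast] at hij
      have : 0 ≤ 1 - mu := by linarith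
      calc f i * ((1 - mu) * g j) = (1 - mu) * (f i * g j) := by ring
        _ ≤ (1 - mu) * (u (i + j) * u (m - 1)) := mul_le_mul_of_nonneg_left hij this
        _ = u (i + j) * ((1 - mu) * u (m - 1)) := by ring
    · have e2 : u' (i + j + 1) = u (i + j + 1) := by
        rw [hu', Function.update_of_ne hlast]
      rw [e2]
      exact (mul_le_mul_of_nonneg_left (hg'le j) (hf i)).trans hij)
  have hsumf : ∑ i ∈ range a, f i = (1 - l) * F := by
    have : F = ∑ i ∈ range a, f i + f a := by rw [hF, Finset.sum_range_succ]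
    rw [← hlF] at this
    linarith
  have hsumg : ∑ j ∈ range (b + 1), g' j = (1 - l) * G := by
    have e1 : ∑ j ∈ range (b + 1), g' j = ∑ j ∈ range b, g j + (1 - mu) * g b := by
      rw [Finset.sum_range_succ, hg', Function.update_self]
      congr 1
      apply Finset.sum_congr rfl
      intro j hj
      rw [Function.update_of_ne (by have := Finset.mem_range.1 hj; omega)]
    have e2 : G = ∑ j ∈ range b, g j + g b := by rw [hG, Finset.sum_range_succ]
    rw [e1]
    have : (1 - mu) * g b = g b - l * G := by rw [sub_mul, one_mul, hmug]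
    rw [this]
    linarith
  rw [hsumf, hsumg] at hnew
  -- identify the `alt` sums
  obtain ⟨c, hc⟩ : ∃ c, m = c + 2 := ⟨m - 2, by omega⟩
  have e1 : alt u (a + 1 + (b + 1)) = alt u' (m - 1) + u m := by
    rw [show a + 1 + (b + 1) = (c + 1) + 2 by omega, alt_succ_succ]
    rw [show m - 1 = c + 1 by omega, show m = c + 1 + 1 by omega]
    congr 1
    apply alt_congr
    intro i hi
    rw [hu', Function.update_of_ne (by omega)]
  have e2 : alt u (a + 1 + (b + 1) - 1) = alt u' m + mu * u (m - 1) := by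
    rw [show a + 1 + (b + 1) - 1 = c + 2 by omega, show alt u' m = alt u' (c + 2) by rw [hc],
      alt_succ_succ, alt_succ_succ]
    have e3 : u' (c + 1) = (1 - mu) * u (m - 1) := by
      rw [hu', show c + 1 = m - 1 by omega, Function.update_self]
    have e4 : alt u' c = alt u c := by
      apply alt_congr
      intro i hi
      rw [hu', Function.update_of_ne (by omega)]
    rw [e3, e4, show c + 1 = m - 1 by omega]
    ring
  rw [e1, e2]
  have h7 : f a * g b ≤ u (m - 1) * u m := by
    have := h a (by omega) b (by omega)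
    rw [show a + b = m - 1 by omega] at this
    rwa [show m - 1 + 1 = m by omega] at this
  have h8 : l ^ 2 * (F * G) ≤ u m * (mu * u (m - 1)) := by
    calc l ^ 2 * (F * G) = (l * F) * (l * G) := by ring
      _ = f a * (mu * g b) := by rw [hlF, hmug]
      _ = mu * (f a * g b) := by ring
      _ ≤ mu * (u (m - 1) * u m) := mul_le_mul_of_nonneg_left h7 hmu0
      _ = u m * (mu * u (m - 1)) := by ring
  have h9 : (1 - l) ^ 2 * (F * G) ≤ alt u' (m - 1) * alt u' m := by
    calc (1 - l) ^ 2 * (F * G) = (1 - l) * F * ((1 - l) * G) := by ring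
      _ ≤ alt u' m * alt u' (m - 1) := hnew
      _ = _ := by ring
  exact algebra_aux (alt_nonneg hu'0 _) (alt_nonneg hu'0 _) (hu _)
    (mul_nonneg hmu0 (hu _)) hl0 hl1 (by positivity) h9 h8

/-- The product form in dimension one. -/
theorem one_dim_alt : ∀ (n a b : ℕ), a + b = n → 1 ≤ a → 1 ≤ b → ∀ (f g u : ℕ → ℝ),
    (∀ i, 0 ≤ f i) → (∀ i, 0 ≤ g i) → (∀ i, 0 ≤ u i) →
    (∀ i < a, ∀ j < b, f i * g j ≤ u (i + j) * u (i + j + 1)) →
    (∑ i ∈ range a, f i) * (∑ j ∈ range b, g j) ≤ alt u (a + b) * alt u (a + b - 1) := by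
  intro n
  induction n with
  | zero => intro a b h1 h2 h3; omega
  | succ n ih =>
    intro a b hab ha hb f g u hf hg hu h
    obtain ⟨a', rfl⟩ : ∃ a', a = a' + 1 := ⟨a - 1, by omega⟩
    obtain ⟨b', rfl⟩ : ∃ b', b = b' + 1 := ⟨b - 1, by omega⟩
    by_cases h11 : a' = 0 ∧ b' = 0
    · obtain ⟨rfl, rfl⟩ := h11
      simp only [zero_add, range_one, sum_singleton]
      have := h 0 (by omega) 0 (by omega)
      simp only [add_zero, zero_add] at this
      have e1 : alt u (1 + 1) = u 1 := by
        rw [show 1 + 1 = 0 + 2 by rfl, alt_succ_succ]; simp [alt]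
      have e2 : alt u (1 + 1 - 1) = u 0 := rfl
      rw [e1, e2, mul_comm (u 1)]
      exact this
    · -- compare the ratios
      have hsym : ∀ i < b' + 1, ∀ j < a' + 1, g i * f j ≤ u (i + j) * u (i + j + 1) := by
        intro i hi j hj
        rw [mul_comm (g i), add_comm i j]
        exact h j hj i hi
      have hcase1 : 1 ≤ a' → f a' * (∑ j ∈ range (b' + 1), g j) ≤
          g b' * (∑ i ∈ range (a' + 1), f i) →
          (∑ i ∈ range (a' + 1), f i) * (∑ j ∈ range (b' + 1), g j) ≤
            alt u (a' + 1 + (b' + 1)) * alt u (a' + 1 + (b' + 1) - 1) := by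
        intro ha' hlam
        exact step_f ha' (fun f g u hf hg hu h => ih a' (b' + 1) (by omega) ha' (by omega)
          f g u hf hg hu h) f g u hf hg hu h hlam
      have hcase2 : 1 ≤ b' → g b' * (∑ i ∈ range (a' + 1), f i) ≤
          f a' * (∑ j ∈ range (b' + 1), g j) →
          (∑ i ∈ range (a' + 1), f i) * (∑ j ∈ range (b' + 1), g j) ≤
            alt u (a' + 1 + (b' + 1)) * alt u (a' + 1 + (b' + 1) - 1) := by
        intro hb' hlam
        have := step_f hb' (fun f g u hf hg hu h => ih b' (a' + 1) (by omega) hb' (by omega)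
          f g u hf hg hu h) g f u hg hf hu hsym hlam
        rw [mul_comm, add_comm (a' + 1)]
        exact this
      have hgG : g b' ≤ ∑ j ∈ range (b' + 1), g j :=
        Finset.single_le_sum (f := g) (fun i _ => hg i) (by simp)
      have hfF : f a' ≤ ∑ j ∈ range (a' + 1), f j :=
        Finset.single_le_sum (f := f) (fun i _ => hf i) (by simp)
      have hF0 : 0 ≤ ∑ j ∈ range (a' + 1), f j := Finset.sum_nonneg (fun i _ => hf i)
      have hG0 : 0 ≤ ∑ j ∈ range (b' + 1), g j := Finset.sum_nonneg (fun i _ => hg i)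
      rcases Nat.eq_zero_or_pos a' with ha0 | ha0
      · -- then `b' ≥ 1`
        refine hcase2 (by omega) ?_
        subst ha0
        simp only [zero_add, range_one, sum_singleton]
        rw [mul_comm]
        exact mul_le_mul_of_nonneg_left hgG (hf 0)
      · rcases Nat.eq_zero_or_pos b' with hb0 | hb0
        · refine hcase1 ha0 ?_
          subst hb0
          simp only [zero_add, range_one, sum_singleton]
          rw [mul_comm]
          exact mul_le_mul_of_nonneg_left hfF (hg 0)
        · rcases le_total (f a' * (∑ j ∈ range (b' + 1), g j))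
            (g b' * (∑ i ∈ range (a' + 1), f i)) with hle | hle
          · exact hcase1 ha0 hle
          · exact hcase2 hb0 hle

end Pool.Agent.Helper69.KL
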